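import Pool.Agent.W614.SC.Main

set_option autoImplicit false

/-!
# Four even sets when the circuits off a circuit are short

The theorem `Pool.Agent.W614.SC.four_circuit` gives, for every circuit `C` of a bridgeless graph of
arbitrary degrees, four even sets which cover every edge of `C` once and every other edge twice,
apart from the edges of an even set `F` without ends on `C`. If all circuits that avoid the vertices
of `C` have at most three edges then the exceptional set can be removed: exchange a circuit of `F`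
in two of the four sets; of the three choices of the pair at most two are bad.
-/

open Finset

namespace Pool.Agent.Y392.SD

open Pool.Agent.Helper347.Sab
open Pool.Agent.W831.HI (decompose_ev countP_sum)

variable {V E : Type} [Fintype V] [DecidableEq V] [Fintype E] [DecidableEq E]

/-- the number of sets containing an edge -/
def ct (X : Fin 4 → Finset E) (e : E) : ℕ := (univ.filter fun i => e ∈ X i).card

theorem small_table : ∀ c : Fin 4 → Bool,
    ((univ.filter fun i => c i = true).card = 0 ∨ (univ.filter fun i => c i = true).card = 4 →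
      ∀ k : Fin 4, k ≠ 0 → (univ.filter fun i => (c i != (i == 0 || i == k)) = true).card = 2) ∧
    ((univ.filter fun i => c i = true).card = 2 →
      ∃ b : Fin 4, ∀ k : Fin 4, k ≠ 0 → k ≠ b →
        (univ.filter fun i => (c i != (i == 0 || i == k)) = true).card = 2) := by
  decide +kernel

/-- exchange the set `Y` in the sets `0` and `k` -/
def flip (X : Fin 4 → Finset E) (Y : Finset E) (k : Fin 4) (i : Fin 4) : Finset E :=
  if i = 0 ∨ i = k then symmDiff (X i) Y else X i

theorem flip_ev (G : MGraph V E) (X : Fin 4 → Finset E) (Y : Finset E) (hX : ∀ i, Ev G (X i))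
    (hY : Ev G Y) (k i : Fin 4) : Ev G (flip X Y k i) := by
  unfold flip
  split_ifs
  · exact ev_symmDiff (hX i) hY
  · exact hX i

theorem flip_off (X : Fin 4 → Finset E) (Y : Finset E) (k i : Fin 4) (e : E) (he : e ∉ Y) :
    e ∈ flip X Y k i ↔ e ∈ X i := by
  unfold flip
  split_ifs
  · rw [mem_symmDiff]; tauto
  · rfl

theorem flip_on (X : Fin 4 → Finset E) (Y : Finset E) (k : Fin 4) (e : E) (he : e ∈ Y) :
    ct (flip X Y k) e =
      (univ.filter fun i : Fin 4 => (decide (e ∈ X i) != (i == 0 || i == k)) = true).card := by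
  unfold ct
  congr 1
  ext i
  rw [mem_filter, mem_filter]
  unfold flip
  by_cases h0 : i = 0 <;> by_cases hk : i = k <;> by_cases hx : e ∈ X i <;>
    simp [h0, hk, hx, mem_symmDiff, he] <;> simp_all

theorem ct_bool (X : Fin 4 → Finset E) (e : E) :
    (univ.filter fun i : Fin 4 => (decide (e ∈ X i)) = true).card = ct X e := by
  unfold ct
  congr 1
  ext i
  simp

/-- one short circuit -/
theorem fix_one (G : MGraph V E) (X : Fin 4 → Finset E) (hX : ∀ i, Ev G (X i)) (Y : Finset E)
    (hY : Ev G Y) (hcard : Y.card ≤ 3) (heven : ∀ e ∈ Y, Even (ct X e)) :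
    ∃ X' : Fin 4 → Finset E, (∀ i, Ev G (X' i)) ∧ (∀ e ∈ Y, ct X' e = 2) ∧
      ∀ e, e ∉ Y → ∀ i, (e ∈ X' i ↔ e ∈ X i) := by
  classical
  by_cases hall : ∀ e ∈ Y, ct X e = 2
  · exact ⟨X, hX, hall, fun _ _ _ => Iff.rfl⟩
  · push Not at hall
    obtain ⟨e0, he0, hc0⟩ := hall
    have hle : ∀ e, ct X e ≤ 4 := by
      intro e
      unfold ct
      exact (card_filter_le _ _).trans (by simp)
    have hcase : ∀ e ∈ Y, ct X e = 0 ∨ ct X e = 4 ∨ ct X e = 2 := by
      intro e he
      obtain ⟨r, hr⟩ := heven e he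
      have := hle e
      omega
    have hbad : ∀ e ∈ Y, ∃ b : Fin 4, ∀ k : Fin 4, k ≠ 0 → k ≠ b → ct (flip X Y k) e = 2 := by
      intro e he
      have ht := small_table (fun i => decide (e ∈ X i))
      rw [ct_bool] at ht
      rcases hcase e he with h | h | h
      · exact ⟨0, fun k hk _ => by rw [flip_on X Y k e he]; exact ht.1 (Or.inl h) k hk⟩
      · exact ⟨0, fun k hk _ => by rw [flip_on X Y k e he]; exact ht.1 (Or.inr h) k hk⟩
      · obtain ⟨b, hb⟩ := ht.2 h
        exact ⟨b, fun k hk hkb => by rw [flip_on X Y k e he]; exact hb k hk hkb⟩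
    have h0 : ∀ k : Fin 4, k ≠ 0 → ct (flip X Y k) e0 = 2 := by
      intro k hk
      have ht := small_table (fun i => decide (e0 ∈ X i))
      rw [ct_bool] at ht
      rw [flip_on X Y k e0 he0]
      apply ht.1 _ k hk
      rcases hcase e0 he0 with h | h | h
      · exact Or.inl h
      · exact Or.inr h
      · exact absurd h hc0
    choose! b hb using hbad
    obtain ⟨k, hk0, hk⟩ : ∃ k : Fin 4, k ≠ 0 ∧ k ∉ (Y.erase e0).image b := by
      by_contra hcon
      push Not at hcon
      have hsub : ({1, 2, 3} : Finset (Fin 4)) ⊆ (Y.erase e0).image b := by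
        intro k hk
        apply hcon
        rintro rfl
        revert hk
        decide
      have h1 := card_le_card hsub
      have h2 := card_image_le (s := Y.erase e0) (f := b)
      have h3 := card_erase_of_mem he0
      have h4 : ({1, 2, 3} : Finset (Fin 4)).card = 3 := by decide
      omega
    refine ⟨flip X Y k, fun i => flip_ev G X Y hX hY k i, ?_, ?_⟩
    · intro e he
      by_cases hee : e = e0
      · rw [hee]; exact h0 k hk0
      · apply hb e he k hk0
        intro hkb
        apply hk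
        rw [mem_image]
        exact ⟨e, mem_erase.2 ⟨hee, he⟩, hkb.symm⟩
    · intro e he i
      exact flip_off X Y k i e he

/-- a family of disjoint short circuits -/
theorem fix_all (G : MGraph V E) (T : Multiset (Finset E)) :
    (∀ Y ∈ T, Ev G Y ∧ Y.card ≤ 3) → (∀ e, T.countP (e ∈ ·) ≤ 1) →
    ∀ X : Fin 4 → Finset E, (∀ i, Ev G (X i)) → (∀ Y ∈ T, ∀ e ∈ Y, Even (ct X e)) →
    ∃ X' : Fin 4 → Finset E, (∀ i, Ev G (X' i)) ∧ (∀ Y ∈ T, ∀ e ∈ Y, ct X' e = 2) ∧
      ∀ e, (∀ Y ∈ T, e ∉ Y) → ∀ i, (e ∈ X' i ↔ e ∈ X i) := by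
  classical
  induction T using Multiset.induction_on with
  | empty =>
    intro _ _ X hX _
    exact ⟨X, hX, fun Y hY => absurd hY (Multiset.notMem_zero Y), fun _ _ _ => Iff.rfl⟩
  | cons Y T ih =>
    intro h1 h2 X hX h3
    have hdis : ∀ Z ∈ T, ∀ e ∈ Z, e ∉ Y := by
      intro Z hZ e he hY
      have := h2 e
      rw [Multiset.countP_cons, if_pos hY] at this
      have h4 : 0 < T.countP (e ∈ ·) := Multiset.countP_pos.2 ⟨Z, hZ, he⟩
      omega
    obtain ⟨X1, hX1, g1, g2⟩ := ih (fun Z hZ => h1 Z (Multiset.mem_cons_of_mem hZ))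
      (fun e => by
        have := h2 e
        rw [Multiset.countP_cons] at this
        omega) X hX (fun Z hZ => h3 Z (Multiset.mem_cons_of_mem hZ))
    have hoff : ∀ e ∈ Y, ∀ i, (e ∈ X1 i ↔ e ∈ X i) := by
      intro e he
      exact g2 e (fun Z hZ heZ => hdis Z hZ e heZ he)
    have hct : ∀ e ∈ Y, ct X1 e = ct X e := by
      intro e he
      unfold ct
      congr 1
      ext i
      rw [mem_filter, mem_filter, hoff e he i]
    obtain ⟨X2, hX2, k1, k2⟩ := fix_one G X1 hX1 Y (h1 Y (Multiset.mem_cons_self Y T)).1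
      (h1 Y (Multiset.mem_cons_self Y T)).2 (fun e he => by
        rw [hct e he]; exact h3 Y (Multiset.mem_cons_self Y T) e he)
    refine ⟨X2, hX2, ?_, ?_⟩
    · intro Z hZ e he
      rw [Multiset.mem_cons] at hZ
      rcases hZ with rfl | hZ
      · exact k1 e he
      · have h5 : e ∉ Y := hdis Z hZ e he
        have h6 : ct X2 e = ct X1 e := by
          unfold ct
          congr 1
          ext i
          rw [mem_filter, mem_filter, k2 e h5 i]
        rw [h6]
        exact g1 Z hZ e he
    · intro e he i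
      rw [k2 e (he Y (Multiset.mem_cons_self Y T)) i]
      exact g2 e (fun Z hZ => he Z (Multiset.mem_cons_of_mem hZ)) i

/-- **Core.** A circuit `D` such that every circuit avoiding its vertices has at most three
edges. -/
theorem core (G : MGraph V E) (D : Finset E) (hD : IsCircuit G D)
    (hb : ∀ e, ∃ X, Ev G X ∧ e ∈ X)
    (h3 : ∀ Y, IsCircuit G Y → (∀ e ∈ Y, ∀ v ∈ G.ends e, dg G D v = 0) → Y.card ≤ 3) :
    ∃ X : Fin 4 → Finset E, (∀ i, Ev G (X i)) ∧ (∀ e ∈ D, ct X e = 1) ∧
      ∀ e, e ∉ D → ct X e = 2 := by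
  classical
  obtain ⟨F, hF, hFv, X, hX, c1, c2, c3⟩ := Pool.Agent.W614.SC.four_circuit G D hD hb
  have hFD : ∀ e ∈ F, e ∉ D := by
    intro e he hc
    obtain ⟨u, v, _, hends⟩ := exists_ends G e
    have hu : u ∈ G.ends e := by rw [hends]; simp
    have := dg_pos_of_mem (G := G) hc hu
    have := hFv e he u hu
    omega
  obtain ⟨T, hT1, hT2⟩ := decompose_ev G F hF
  have hTF : ∀ Y ∈ T, ∀ e ∈ Y, e ∈ F := by
    intro Y hY e he
    have h4 : 0 < T.countP (fun X => e ∈ X) := Multiset.countP_pos.2 ⟨Y, hY, he⟩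
    rw [hT2 e] at h4
    by_contra hf
    rw [if_neg hf] at h4
    omega
  obtain ⟨X', hX', k1, k2⟩ := fix_all G T
    (fun Y hY => ⟨Pool.Agent.Helper998.Near.ev_circuit G Y (hT1 Y hY),
      h3 Y (hT1 Y hY) (fun e he => hFv e (hTF Y hY e he))⟩)
    (fun e => by rw [hT2 e]; split_ifs <;> omega) X hX
    (fun Y hY e he => c3 e (hFD e (hTF Y hY e he)))
  have hsame : ∀ e, e ∉ F → ct X' e = ct X e := by
    intro e he
    unfold ct
    congr 1
    ext i
    rw [mem_filter, mem_filter, k2 e (fun Y hY heY => he (hTF Y hY e heY)) i]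
  refine ⟨X', hX', ?_, ?_⟩
  · intro e he
    rw [hsame e (fun h => hFD e h he)]
    exact c1 e he
  · intro e he
    by_cases hf : e ∈ F
    · have h4 : 0 < T.countP (fun X => e ∈ X) := by
        rw [hT2 e, if_pos hf]; norm_num
      obtain ⟨Y, hY, heY⟩ := Multiset.countP_pos.1 h4
      exact k1 Y hY e heY
    · rw [hsame e hf]
      exact c2 e he hf

end Pool.Agent.Y392.SD
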