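import Pool.Agent.Y392.SD.Sub

set_option autoImplicit false

/-!
# Final forms
-/

open Finset

namespace Pool.Agent.Y392.SD

open Pool.Agent.Helper347.Sab
open Pool.Agent.Helper998.Near (ev_circuit one_off union_connected trail_flow)
open Pool.Agent.Results.MP_e720fa_co.ColourableComplement (circ_complete)

variable {V E : Type} [Fintype V] [DecidableEq V] [Fintype E] [DecidableEq E]

/-- `T` is a family of pairwise edge-disjoint circuits of `G` all of whose vertices are vertices of
the circuit `D`. -/
def OnCircuit (G : MGraph V E) (D : Finset E) (T : Multiset (Finset E)) : Prop :=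
  (∀ C ∈ T, IsCircuit G C ∧ ∀ v, dg G C v = 2 → dg G D v = 2) ∧ ∀ e, T.countP (e ∈ ·) ≤ 1

theorem onCircuit_single (G : MGraph V E) (D C : Finset E) (hC : IsCircuit G C)
    (h : ∀ v, dg G C v = 2 → dg G D v = 2) : OnCircuit G D {C} := by
  refine ⟨?_, ?_⟩
  · intro X hX
    rw [Multiset.mem_singleton] at hX
    rw [hX]
    exact ⟨hC, h⟩
  · intro e
    exact (Multiset.countP_le_card _ _).trans (by simp)

theorem family_short (G : MGraph V E) (D : Finset E) (hD : IsCircuit G D)
    (hb : ∀ e, ∃ X, Ev G X ∧ e ∈ X)
    (h3 : ∀ Y, IsCircuit G Y → (∀ e ∈ Y, ∀ v ∈ G.ends e, dg G D v = 0) → Y.card ≤ 3)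
    (T : Multiset (Finset E)) (hT : OnCircuit G D T) :
    ∃ F : Multiset (Finset E), IsCDC G F ∧ T ≤ F :=
  family G D hD (four_short G D hD hb h3) T hT.1 hT.2

theorem family_flow (G : MGraph V E) (D : Finset E) (hD : IsCircuit G D) (A B : Finset E)
    (hA : Ev G A) (hB : Ev G B) (hAB : ∀ e, e ∉ D → e ∈ A ∨ e ∈ B)
    (T : Multiset (Finset E)) (hT : OnCircuit G D T) :
    ∃ F : Multiset (Finset E), IsCDC G F ∧ T ≤ F :=
  family G D hD (four_flow_sub G D hD A B hA hB hAB) T hT.1 hT.2

theorem mem_of_single {C : Finset E} {F : Multiset (Finset E)} (h : ({C} : Multiset (Finset E)) ≤ F) :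
    C ∈ F := Multiset.singleton_le.1 h

/-- A dominating circuit of a graph without vertices of degree one: every edge lies in an even
set. -/
theorem even_of_dom (G : MGraph V E) (D : Finset E) (hD : IsCircuit G D)
    (hdom : ∀ e, ∃ v ∈ G.ends e, dg G D v = 2) (h1 : ∀ v, dg G univ v ≠ 1) (e : E) :
    ∃ X, Ev G X ∧ e ∈ X := by
  classical
  by_cases heD : e ∈ D
  · exact ⟨D, ev_circuit G D hD, heD⟩
  by_cases hall : ∀ v ∈ G.ends e, dg G D v = 2
  · obtain ⟨J, _, hEv⟩ := circ_complete G D {e} hD (by
      rw [disjoint_singleton_right]; exact heD) (by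
      intro v hv
      have h2 : (({e} : Finset E).filter fun f => v ∈ G.ends f) = ∅ := by
        rw [filter_eq_empty_iff]
        intro f hf hvf
        rw [mem_singleton] at hf
        rw [hf] at hvf
        have := hall v hvf
        omega
      unfold dg
      rw [h2]
      simp)
    exact ⟨_, hEv, mem_union_left _ (mem_singleton_self e)⟩
  · push Not at hall
    obtain ⟨w, hw, hw2⟩ := hall
    have hw0 : dg G D w = 0 := (hD.2.1 w).resolve_right hw2
    have hpos : 0 < dg G univ w := dg_pos_of_mem (mem_univ e) hw
    have h2 : 1 < (univ.filter fun f => w ∈ G.ends f).card := by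
      have := h1 w
      unfold dg at this hpos
      omega
    obtain ⟨e', he', hne⟩ := exists_mem_ne h2 e
    have hwe' : w ∈ G.ends e' := (mem_filter.1 he').2
    have hone : ∀ f, w ∈ G.ends f → ∀ v ∈ G.ends f, v ≠ w → dg G D v = 2 := by
      intro f hf v hv hvw
      obtain ⟨x, hx, hx2⟩ := hdom f
      have hxw : x ≠ w := by rintro rfl; omega
      have hends : G.ends f = s(w, x) := (Sym2.mem_and_mem_iff hxw.symm).1 ⟨hf, hx⟩
      rw [hends, Sym2.mem_iff] at hv
      rcases hv with h | h
      · exact absurd h hvw
      · rw [h]; exact hx2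
    have hnD : ∀ f, w ∈ G.ends f → f ∉ D := by
      intro f hf hfD
      have := dg_pos_of_mem (G := G) hfD hf
      omega
    obtain ⟨J, _, hEv⟩ := circ_complete G D {e, e'} hD (by
      rw [disjoint_right]
      intro f hf
      rw [mem_insert, mem_singleton] at hf
      rcases hf with rfl | rfl
      · exact hnD _ hw
      · exact hnD _ hwe') (by
      intro v hv
      by_cases hvw : v = w
      · have h3 : (({e, e'} : Finset E).filter fun f => v ∈ G.ends f) = {e, e'} := by
          rw [filter_eq_self]
          intro f hf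
          rw [mem_insert, mem_singleton] at hf
          rw [hvw]
          rcases hf with rfl | rfl
          · exact hw
          · exact hwe'
        unfold dg
        rw [h3, card_pair hne.symm]
        decide
      · have h3 : (({e, e'} : Finset E).filter fun f => v ∈ G.ends f) = ∅ := by
          rw [filter_eq_empty_iff]
          intro f hf hvf
          rw [mem_insert, mem_singleton] at hf
          rcases hf with rfl | rfl
          · have := hone _ hw v hvf hvw
            omega
          · have := hone _ hwe' v hvf hvw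
            omega
        unfold dg
        rw [h3]
        simp)
    exact ⟨_, hEv, mem_union_left _ (by simp)⟩

/-- circuits avoiding a dominating circuit do not exist -/
theorem short_of_dom (G : MGraph V E) (D : Finset E)
    (hdom : ∀ e, ∃ v ∈ G.ends e, dg G D v = 2) (Y : Finset E) (hY : IsCircuit G Y)
    (h : ∀ e ∈ Y, ∀ v ∈ G.ends e, dg G D v = 0) : Y.card ≤ 3 := by
  exfalso
  obtain ⟨e, he⟩ := hY.1
  obtain ⟨v, hv, hv2⟩ := hdom e
  have := h e he v hv
  omega

/-- circuits avoiding a circuit that misses at most three vertices are short -/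
theorem short_of_three (G : MGraph V E) (D : Finset E)
    (h3 : (univ.filter fun v => dg G D v = 0).card ≤ 3) (Y : Finset E) (hY : IsCircuit G Y)
    (h : ∀ e ∈ Y, ∀ v ∈ G.ends e, dg G D v = 0) : Y.card ≤ 3 := by
  have h1 := Pool.Agent.W614.SC.sum_dg G Y
  have h2 : ∑ v, dg G Y v ≤ ∑ v, (if dg G D v = 0 then 2 else 0) := by
    apply sum_le_sum
    intro v _
    by_cases hv : dg G D v = 0
    · rw [if_pos hv]
      rcases hY.2.1 v with h4 | h4 <;> omega
    · rw [if_neg hv]
      by_contra hcon
      obtain ⟨e, he, hve⟩ := exists_mem_of_dg_pos (G := G) (X := Y) (v := v) (by omega)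
      exact hv (h e he v hve)
  rw [← sum_filter, sum_const, smul_eq_mul] at h2
  omega

/-- The circumference is at least the number of vertices minus one. -/
def NearHamiltonian (G : MGraph V E) : Prop :=
  ∃ A : Finset E, IsCircuit G A ∧ Fintype.card V ≤ A.card + 1

/-- Near-Hamiltonian graphs of arbitrary degrees. -/
theorem near (G : MGraph V E) (h1 : ∀ v, dg G univ v ≠ 1) (hn : NearHamiltonian G) (C : Finset E)
    (hC : IsCircuit G C) : ∃ F : Multiset (Finset E), IsCDC G F ∧ C ∈ F := by
  obtain ⟨A, hA, hlen⟩ := hn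
  by_cases hv : ∀ v, dg G A v = 0 → dg G C v = 2
  · obtain ⟨B, hB1, hB2⟩ := trail_flow G C A (ev_circuit G A hA)
      (union_connected G C A hA (one_off G A hA hlen) hv)
    obtain ⟨F, hF, hle⟩ := family_flow G C hC A B (ev_circuit G A hA) hB1 hB2 {C}
      (onCircuit_single G C C hC fun v h => h)
    exact ⟨F, hF, mem_of_single hle⟩
  · push Not at hv
    obtain ⟨x, hx, hCx⟩ := hv
    have hdom : ∀ e, ∃ v ∈ G.ends e, dg G A v = 2 := by
      intro e
      obtain ⟨a, b, hab, hends⟩ := exists_ends G e
      by_contra hcon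
      push Not at hcon
      have ha : dg G A a = 0 := (hA.2.1 a).resolve_right (hcon a (by rw [hends]; simp))
      have hb : dg G A b = 0 := (hA.2.1 b).resolve_right (hcon b (by rw [hends]; simp))
      exact hab (one_off G A hA hlen a b ha hb)
    obtain ⟨F, hF, hle⟩ := family_short G A hA (even_of_dom G A hA hdom h1)
      (short_of_dom G A hdom) {C} (onCircuit_single G A C hC (by
        intro v hv2
        refine (hA.2.1 v).resolve_left fun h0 => ?_
        have := one_off G A hA hlen x v hx h0
        rw [this] at hCx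
        exact hCx hv2))
    exact ⟨F, hF, mem_of_single hle⟩

end Pool.Agent.Y392.SD
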