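import Pool.Agent.Y392.SD.Core
import Pool.Agent.Results.MP_e720fa_co.ColourableComplement

set_option autoImplicit false

/-!
# Deleting chords; flows; families of circuits
-/

open Finset

namespace Pool.Agent.Y392.SD

open Pool.Agent.Helper347.Sab
open Pool.Agent.W831.HI (decompose_ev)
open Pool.Agent.Helper998.Near (Rch rch_symm)
open Pool.Agent.Results.MP_e720fa_co.ColourableComplement (circ_complete)

variable {V E : Type} [Fintype V] [DecidableEq V] [Fintype E] [DecidableEq E]

/-- the graph without the edges of `Z` -/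
def sub (G : MGraph V E) (Z : Finset E) : MGraph V {e // e ∉ Z} :=
  ⟨fun e => G.ends e.1, fun e => G.loopless e.1⟩

def up (Z : Finset E) (X : Finset {e // e ∉ Z}) : Finset E := X.map (Function.Embedding.subtype _)

def down (Z X : Finset E) : Finset {e // e ∉ Z} := univ.filter fun e => e.1 ∈ X

theorem mem_up (Z : Finset E) (X : Finset {e // e ∉ Z}) (e : E) :
    e ∈ up Z X ↔ ∃ h : e ∉ Z, (⟨e, h⟩ : {e // e ∉ Z}) ∈ X := by
  unfold up
  rw [mem_map]
  constructor
  · rintro ⟨a, ha, rfl⟩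
    exact ⟨a.2, ha⟩
  · rintro ⟨h, hx⟩
    exact ⟨⟨e, h⟩, hx, rfl⟩

theorem mem_down (Z X : Finset E) (e : {e // e ∉ Z}) : e ∈ down Z X ↔ e.1 ∈ X := by
  unfold down
  rw [mem_filter]
  simp

theorem dg_up (G : MGraph V E) (Z : Finset E) (X : Finset {e // e ∉ Z}) (v : V) :
    dg G (up Z X) v = dg (sub G Z) X v := by
  unfold dg up
  rw [filter_map, card_map]
  rfl

theorem up_down (Z X : Finset E) (h : Disjoint X Z) : up Z (down Z X) = X := by
  ext e
  rw [mem_up]
  constructor
  · rintro ⟨h1, h2⟩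
    exact (mem_down Z X _).1 h2
  · intro he
    have h1 : e ∉ Z := fun hz => disjoint_left.1 h he hz
    exact ⟨h1, (mem_down Z X ⟨e, h1⟩).2 he⟩

theorem dg_down (G : MGraph V E) (Z X : Finset E) (h : Disjoint X Z) (v : V) :
    dg (sub G Z) (down Z X) v = dg G X v := by
  rw [← dg_up, up_down Z X h]

theorem circ_up (G : MGraph V E) (Z : Finset E) (Y : Finset {e // e ∉ Z})
    (hY : IsCircuit (sub G Z) Y) : IsCircuit G (up Z Y) := by
  obtain ⟨⟨e0, he0⟩, h2, h3⟩ := hY
  refine ⟨⟨e0.1, (mem_up Z Y _).2 ⟨e0.2, he0⟩⟩, fun v => by rw [dg_up]; exact h2 v, ?_⟩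
  intro e he f hf
  obtain ⟨he1, he2⟩ := (mem_up Z Y e).1 he
  obtain ⟨hf1, hf2⟩ := (mem_up Z Y f).1 hf
  have h := h3 _ he2 _ hf2
  have key : ∀ a b : {e // e ∉ Z},
      Relation.ReflTransGen (fun a b => b ∈ Y ∧ Touch (sub G Z) a b) a b →
      Relation.ReflTransGen (fun a b => b ∈ up Z Y ∧ Touch G a b) a.1 b.1 := by
    intro a b hab
    induction hab with
    | refl => exact Relation.ReflTransGen.refl
    | @tail x y _ h1 ih =>
      obtain ⟨hc, v, hv1, hv2⟩ := h1
      exact ih.tail ⟨(mem_up Z Y _).2 ⟨y.2, hc⟩, v, hv1, hv2⟩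
  exact key _ _ h

theorem circ_down (G : MGraph V E) (Z D : Finset E) (hDZ : Disjoint D Z) (hD : IsCircuit G D) :
    IsCircuit (sub G Z) (down Z D) := by
  obtain ⟨⟨e0, he0⟩, h2, h3⟩ := hD
  have hnZ : ∀ e ∈ D, e ∉ Z := fun e he hz => disjoint_left.1 hDZ he hz
  refine ⟨⟨⟨e0, hnZ e0 he0⟩, (mem_down Z D _).2 he0⟩,
    fun v => by rw [dg_down G Z D hDZ]; exact h2 v, ?_⟩
  have key : ∀ e f, (heD : e ∈ D) →
      Relation.ReflTransGen (fun a b => b ∈ D ∧ Touch G a b) e f → ∃ hfD : f ∈ D,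
      Relation.ReflTransGen (fun a b => b ∈ down Z D ∧ Touch (sub G Z) a b)
        (⟨e, hnZ e heD⟩ : {e // e ∉ Z}) ⟨f, hnZ f hfD⟩ := by
    intro e f heD h
    induction h with
    | refl => exact ⟨heD, Relation.ReflTransGen.refl⟩
    | tail _ h1 ih =>
      rename_i b c
      obtain ⟨hb, h4⟩ := ih
      obtain ⟨hc, v, hv1, hv2⟩ := h1
      exact ⟨hc, h4.tail ⟨(mem_down Z D _).2 hc, v, hv1, hv2⟩⟩
  intro e he f hf
  have heD := (mem_down Z D e).1 he
  have hfD := (mem_down Z D f).1 hf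
  obtain ⟨_, h5⟩ := key e.1 f.1 heD (h3 e.1 heD f.1 hfD)
  exact h5

/-- four even sets covering the edges of `D` once and the others twice -/
def Four (G : MGraph V E) (D : Finset E) : Prop :=
  ∃ X : Fin 4 → Finset E, (∀ i, Ev G (X i)) ∧ (∀ e ∈ D, ct X e = 1) ∧ ∀ e, e ∉ D → ct X e = 2

/-- edges of `Z` are chords of `D` -/
def Chords (G : MGraph V E) (D Z : Finset E) : Prop :=
  Disjoint D Z ∧ ∀ e ∈ Z, ∀ v ∈ G.ends e, dg G D v = 2

/-- An even set of `G` can be changed on `D` so as to avoid the chords `Z`. -/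
theorem avoid (G : MGraph V E) (D Z : Finset E) (hD : IsCircuit G D) (hZ : Chords G D Z)
    (A : Finset E) (hA : Ev G A) :
    ∃ A' : Finset E, Ev G A' ∧ Disjoint A' Z ∧ ∀ e, e ∉ D → e ∉ Z → e ∈ A → e ∈ A' := by
  obtain ⟨M, hM⟩ : ∃ M : Finset E, ∀ e, e ∈ M ↔ e ∈ A ∧ e ∉ D ∧ e ∉ Z :=
    ⟨univ.filter fun e => e ∈ A ∧ e ∉ D ∧ e ∉ Z, fun e => by simp⟩
  have hdis : Disjoint D M := by
    rw [disjoint_left]
    intro e h1 h2
    exact ((hM e).1 h2).2.1 h1
  obtain ⟨J, hJ, hEv⟩ := circ_complete G D M hD hdis (by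
    intro v hv
    have h1 : (M.filter fun e => v ∈ G.ends e) = A.filter fun e => v ∈ G.ends e := by
      ext e
      rw [mem_filter, mem_filter, hM]
      constructor
      · rintro ⟨h2, h3⟩
        exact ⟨h2.1, h3⟩
      · rintro ⟨h2, h3⟩
        refine ⟨⟨h2, ?_, ?_⟩, h3⟩
        · intro hc
          have := dg_pos_of_mem (G := G) hc h3
          omega
        · intro hc
          have := hZ.2 e hc v h3
          omega
    unfold dg
    rw [h1]
    exact hA v)
  refine ⟨M ∪ J, hEv, ?_, ?_⟩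
  · rw [disjoint_left]
    intro e he hz
    rw [mem_union] at he
    rcases he with h | h
    · exact ((hM e).1 h).2.2 hz
    · exact disjoint_left.1 hZ.1 (hJ h) hz
  · intro e h1 h2 h3
    exact mem_union_left _ ((hM e).2 ⟨h3, h1, h2⟩)

theorem ev_down (G : MGraph V E) (Z A : Finset E) (h : Disjoint A Z) (hA : Ev G A) :
    Ev (sub G Z) (down Z A) := by
  intro v
  rw [dg_down G Z A h]
  exact hA v

/-- The short-circuit case. -/
theorem four_short (G : MGraph V E) (D : Finset E) (hD : IsCircuit G D)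
    (hb : ∀ e, ∃ X, Ev G X ∧ e ∈ X)
    (h3 : ∀ Y, IsCircuit G Y → (∀ e ∈ Y, ∀ v ∈ G.ends e, dg G D v = 0) → Y.card ≤ 3)
    (Z : Finset E) (hZ : Chords G D Z) : Four (sub G Z) (down Z D) := by
  apply core
  · exact circ_down G Z D hZ.1 hD
  · intro e
    by_cases he : e.1 ∈ D
    · exact ⟨down Z D, ev_down G Z D hZ.1 (Pool.Agent.Helper998.Near.ev_circuit G D hD),
        (mem_down Z D e).2 he⟩
    · obtain ⟨X, hX, heX⟩ := hb e.1
      obtain ⟨A', h1, h2, h4⟩ := avoid G D Z hD hZ X hX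
      exact ⟨down Z A', ev_down G Z A' h2 h1, (mem_down Z A' e).2 (h4 e.1 he e.2 heX)⟩
  · intro Y hY h
    have h4 := h3 (up Z Y) (circ_up G Z Y hY) (by
      intro e he v hv
      obtain ⟨he1, he2⟩ := (mem_up Z Y e).1 he
      have := h ⟨e, he1⟩ he2 v hv
      rwa [dg_down G Z D hZ.1] at this)
    unfold up at h4
    rwa [card_map] at h4

/-- The part of an even set in one class of `G - E(C)`. -/
theorem class_flow (G : MGraph V E) (C : Finset E) (hC : IsCircuit G C) (A : Finset E)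
    (hA : Ev G A) (v : V) :
    ∃ A' : Finset E, Ev G A' ∧
      (∀ f, f ∉ C → f ∈ A' → ∀ u ∈ G.ends f, Rch G (univ \ C) v u) ∧
      ∀ f, f ∉ C → (∀ u ∈ G.ends f, Rch G (univ \ C) v u) → f ∈ A → f ∈ A' := by
  classical
  obtain ⟨M, hM⟩ : ∃ M : Finset E, ∀ f, f ∈ M ↔ f ∈ A ∧ f ∉ C ∧
      ∀ u ∈ G.ends f, Rch G (univ \ C) v u :=
    ⟨univ.filter fun f => f ∈ A ∧ f ∉ C ∧ ∀ u ∈ G.ends f, Rch G (univ \ C) v u,
      fun f => by rw [mem_filter]; simp⟩
  have hdis : Disjoint C M := by
    rw [disjoint_left]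
    intro f h1 h2
    exact ((hM f).1 h2).2.1 h1
  obtain ⟨J, hJ, hEv⟩ := circ_complete G C M hC hdis (by
    intro w hw
    have hnC : ∀ f, w ∈ G.ends f → f ∉ C := by
      intro f hf h1
      have := dg_pos_of_mem (G := G) h1 hf
      omega
    by_cases hr : Rch G (univ \ C) v w
    · have h2 : (M.filter fun f => w ∈ G.ends f) = A.filter fun f => w ∈ G.ends f := by
        ext f
        rw [mem_filter, mem_filter, hM]
        constructor
        · rintro ⟨h3, h4⟩
          exact ⟨h3.1, h4⟩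
        · rintro ⟨h3, h4⟩
          refine ⟨⟨h3, hnC f h4, ?_⟩, h4⟩
          intro u hu
          by_cases huw : w = u
          · rw [← huw]; exact hr
          · refine hr.tail ⟨f, mem_sdiff.2 ⟨mem_univ _, hnC f h4⟩, ?_⟩
            exact (Sym2.mem_and_mem_iff huw).1 ⟨h4, hu⟩
      unfold dg
      rw [h2]
      exact hA w
    · have h2 : (M.filter fun f => w ∈ G.ends f) = ∅ := by
        rw [filter_eq_empty_iff]
        intro f hf hwf
        exact hr (((hM f).1 hf).2.2 w hwf)
      unfold dg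
      rw [h2]
      simp)
  refine ⟨M ∪ J, hEv, ?_, ?_⟩
  · intro f hf h1
    rw [mem_union] at h1
    rcases h1 with h | h
    · exact ((hM f).1 h).2.2
    · exact absurd (hJ h) hf
  · intro f hf h1 h2
    exact mem_union_left _ ((hM f).2 ⟨h2, hf, h1⟩)

/-- The 4-flow case. -/
theorem four_flow (G : MGraph V E) (D : Finset E) (hD : IsCircuit G D) (A B : Finset E)
    (hA : Ev G A) (hB : Ev G B) (hAB : ∀ e, e ∉ D → e ∈ A ∨ e ∈ B) : Four G D := by
  obtain ⟨X, hX, h1, h2, _⟩ := Pool.Agent.W614.SC.four_of_flows G D ∅ hD.2.1 (by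
    intro v
    obtain ⟨A', a1, a2, a3⟩ := class_flow G D hD A hA v
    obtain ⟨B', b1, b2, b3⟩ := class_flow G D hD B hB v
    refine ⟨A', B', a1, b1, ?_, ?_⟩
    · intro f hf h
      rcases h with h | h
      · exact a2 f hf h
      · exact b2 f hf h
    · intro f hf _ h
      rcases hAB f hf with h4 | h4
      · exact Or.inl (a3 f hf h h4)
      · exact Or.inr (b3 f hf h h4))
  exact ⟨X, hX, h1, fun e he => h2 e he (notMem_empty e)⟩

theorem four_flow_sub (G : MGraph V E) (D : Finset E) (hD : IsCircuit G D) (A B : Finset E)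
    (hA : Ev G A) (hB : Ev G B) (hAB : ∀ e, e ∉ D → e ∈ A ∨ e ∈ B)
    (Z : Finset E) (hZ : Chords G D Z) : Four (sub G Z) (down Z D) := by
  obtain ⟨A', a1, a2, a3⟩ := avoid G D Z hD hZ A hA
  obtain ⟨B', b1, b2, b3⟩ := avoid G D Z hD hZ B hB
  apply four_flow (sub G Z) (down Z D) (circ_down G Z D hZ.1 hD) (down Z A') (down Z B')
    (ev_down G Z A' a2 a1) (ev_down G Z B' b2 b1)
  intro e he
  rw [mem_down] at he
  rcases hAB e.1 he with h | h
  · exact Or.inl ((mem_down Z A' e).2 (a3 e.1 he e.2 h))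
  · exact Or.inr ((mem_down Z B' e).2 (b3 e.1 he e.2 h))

/-- the union of a family of disjoint circuits is even -/
theorem ev_union (G : MGraph V E) (T : Multiset (Finset E)) :
    (∀ C ∈ T, Ev G C) → (∀ e, T.countP (e ∈ ·) ≤ 1) →
    Ev G (univ.filter fun e => T.countP (e ∈ ·) = 1) := by
  classical
  induction T using Multiset.induction_on with
  | empty =>
    intro _ _ v
    simp [dg]
  | cons Y T ih =>
    intro h1 h2
    have hle : ∀ e, T.countP (e ∈ ·) ≤ 1 := by
      intro e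
      have := h2 e
      rw [Multiset.countP_cons] at this
      omega
    have h3 := ih (fun C hC => h1 C (Multiset.mem_cons_of_mem hC)) hle
    have h4 := ev_symmDiff (h1 Y (Multiset.mem_cons_self Y T)) h3
    have h5 : (univ.filter fun e => (Y ::ₘ T).countP (e ∈ ·) = 1) =
        symmDiff Y (univ.filter fun e => T.countP (e ∈ ·) = 1) := by
      ext e
      have h6 := h2 e
      rw [Multiset.countP_cons] at h6
      rw [mem_filter, mem_symmDiff, mem_filter, Multiset.countP_cons]
      by_cases hY : e ∈ Y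
      · rw [if_pos hY] at h6 ⊢
        have : T.countP (e ∈ ·) = 0 := by omega
        simp [this, hY]
      · rw [if_neg hY] at h6 ⊢
        simp [hY]
    rw [h5]
    exact h4

/-- **Families.** If the four sets exist after the deletion of any set of chords of `D` then every
family of pairwise edge-disjoint circuits whose vertices lie on `D` is part of a circuit double
cover. -/
theorem family (G : MGraph V E) (D : Finset E) (hD : IsCircuit G D)
    (hfour : ∀ Z, Chords G D Z → Four (sub G Z) (down Z D))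
    (T : Multiset (Finset E)) (hT : ∀ C ∈ T, IsCircuit G C ∧ ∀ v, dg G C v = 2 → dg G D v = 2)
    (hdis : ∀ e, T.countP (e ∈ ·) ≤ 1) :
    ∃ F : Multiset (Finset E), IsCDC G F ∧ T ≤ F := by
  classical
  obtain ⟨S, hSdef⟩ : ∃ S : Finset E, S = univ.filter fun e => T.countP (e ∈ ·) = 1 := ⟨_, rfl⟩
  have hS : Ev G S := by
    rw [hSdef]
    exact ev_union G T (fun C hC => Pool.Agent.Helper998.Near.ev_circuit G C (hT C hC).1) hdis
  have hSc : ∀ e, T.countP (e ∈ ·) = if e ∈ S then 1 else 0 := by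
    intro e
    have := hdis e
    by_cases h : T.countP (e ∈ ·) = 1
    · have hm : e ∈ S := by rw [hSdef, mem_filter]; exact ⟨mem_univ _, h⟩
      rw [if_pos hm, h]
    · have hm : e ∉ S := by
        rw [hSdef, mem_filter]
        exact fun h' => h h'.2
      rw [if_neg hm]
      omega
  have hchord : Chords G D (S \ D) := by
    refine ⟨disjoint_sdiff, ?_⟩
    intro e he v hv
    rw [mem_sdiff] at he
    have h1 : 0 < T.countP (e ∈ ·) := by rw [hSc e, if_pos he.1]; norm_num
    obtain ⟨C, hC, heC⟩ := Multiset.countP_pos.1 h1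
    apply (hT C hC).2 v
    rcases (hT C hC).1.2.1 v with h | h
    · have := dg_pos_of_mem (G := G) heC hv
      omega
    · exact h
  obtain ⟨X, hX, x1, x2⟩ := hfour (S \ D) hchord
  have hXe : ∀ i, Ev G (up (S \ D) (X i)) := by
    intro i v
    rw [dg_up]
    exact hX i v
  have hct : ∀ e, ct (fun i => up (S \ D) (X i)) e =
      if e ∈ D then 1 else (if e ∈ S then 0 else 2) := by
    intro e
    by_cases hZ : e ∈ S \ D
    · have h1 : ct (fun i => up (S \ D) (X i)) e = 0 := by
        unfold ct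
        rw [card_eq_zero, filter_eq_empty_iff]
        intro i _ h
        exact ((mem_up _ _ _).1 h).1 hZ
      rw [mem_sdiff] at hZ
      rw [h1, if_neg hZ.2, if_pos hZ.1]
    · have h1 : ct (fun i => up (S \ D) (X i)) e = ct X ⟨e, hZ⟩ := by
        unfold ct
        congr 1
        ext i
        rw [mem_filter, mem_filter, mem_up]
        constructor
        · rintro ⟨h2, _, h3⟩
          exact ⟨h2, h3⟩
        · rintro ⟨h2, h3⟩
          exact ⟨h2, hZ, h3⟩
      rw [h1]
      by_cases hd : e ∈ D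
      · rw [if_pos hd]
        exact x1 _ ((mem_down _ _ _).2 hd)
      · have hs : e ∉ S := fun hs => hZ (mem_sdiff.2 ⟨hs, hd⟩)
        rw [if_neg hd, if_neg hs]
        exact x2 _ (fun h => hd ((mem_down _ _ _).1 h))
  obtain ⟨T0, t1, t2⟩ := decompose_ev G (symmDiff S D)
    (ev_symmDiff hS (Pool.Agent.Helper998.Near.ev_circuit G D hD))
  choose T' t3 t4 using fun i => decompose_ev G (up (S \ D) (X i)) (hXe i)
  refine ⟨T + (T0 + ∑ i, T' i), ⟨?_, ?_⟩, Multiset.le_add_right _ _⟩
  · intro Y hY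
    rw [Multiset.mem_add, Multiset.mem_add] at hY
    rcases hY with h | h | h
    · exact (hT Y h).1
    · exact t1 Y h
    · rw [Multiset.mem_sum] at h
      obtain ⟨i, _, hi⟩ := h
      exact t3 i Y hi
  · intro e
    rw [Multiset.countP_add, Multiset.countP_add, Pool.Agent.W831.HI.countP_sum, hSc e, t2 e,
      sum_congr rfl fun i _ => t4 i e]
    have h5 : ∑ i, (if e ∈ up (S \ D) (X i) then 1 else 0) =
        ct (fun i => up (S \ D) (X i)) e := by
      unfold ct
      rw [card_filter]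
    rw [h5, hct e]
    by_cases hs : e ∈ S <;> by_cases hd : e ∈ D <;> simp [hs, hd, mem_symmDiff]

end Pool.Agent.Y392.SD
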