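import Pool.Agent.Y392.SD.Fin
import Pool.Agent.H126R2.CDC.Decomp

set_option autoImplicit false
set_option linter.unusedSectionVars false

/-!
# The auxiliary graph of a closed trail

The vertices `inl i` (`i : ZMod m`) form a circuit, and `inl i` is joined to the vertex `inr (v i)`.
-/

open Finset

namespace Pool.Agent.Y392.SD.Tour

open Pool.Agent.Helper347.Sab

variable {V : Type} [Fintype V] [DecidableEq V] {m : ℕ} [NeZero m]

theorem ne_succ (hm : 1 < m) (i : ZMod m) : i ≠ i + 1 := by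
  have : Fact (1 < m) := ⟨hm⟩
  intro h
  have h1 : (1 : ZMod m) = 0 := by
    have : i + 0 = i + 1 := by rw [add_zero]; exact h
    exact (add_left_cancel this).symm
  exact one_ne_zero h1

/-- the auxiliary graph -/
def aux (hm : 1 < m) (v : ZMod m → V) : MGraph (ZMod m ⊕ V) (ZMod m ⊕ ZMod m) where
  ends := Sum.elim (fun i => s(Sum.inl i, Sum.inl (i + 1))) (fun i => s(Sum.inl i, Sum.inr (v i)))
  loopless := by
    rintro (i | i)
    · rw [Sum.elim_inl, Sym2.mk_isDiag_iff]
      intro h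
      exact ne_succ hm i (Sum.inl.inj h)
    · rw [Sum.elim_inr, Sym2.mk_isDiag_iff]
      intro h
      exact Sum.inl_ne_inr h

theorem aux_inl (hm : 1 < m) (v : ZMod m → V) (i : ZMod m) :
    (aux hm v).ends (Sum.inl i) = s(Sum.inl i, Sum.inl (i + 1)) := rfl

theorem aux_inr (hm : 1 < m) (v : ZMod m → V) (i : ZMod m) :
    (aux hm v).ends (Sum.inr i) = s(Sum.inl i, Sum.inr (v i)) := rfl

theorem dg_sum (hm : 1 < m) (v : ZMod m → V) (S : Finset (ZMod m ⊕ ZMod m)) (y : ZMod m ⊕ V) :
    dg (aux hm v) S y =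
      (∑ i : ZMod m, if (Sum.inl i : ZMod m ⊕ ZMod m) ∈ S ∧ y ∈ (aux hm v).ends (Sum.inl i)
        then 1 else 0) +
      ∑ i : ZMod m, if (Sum.inr i : ZMod m ⊕ ZMod m) ∈ S ∧ y ∈ (aux hm v).ends (Sum.inr i)
        then 1 else 0 := by
  unfold dg
  have h1 : (S.filter fun e => y ∈ (aux hm v).ends e) =
      univ.filter fun e => e ∈ S ∧ y ∈ (aux hm v).ends e := by
    ext e; simp
  rw [h1, card_filter, Fintype.sum_sum_type]

/-- degrees at the vertices of the circuit -/
theorem dg_inl (hm : 1 < m) (v : ZMod m → V) (S : Finset (ZMod m ⊕ ZMod m)) (j : ZMod m) :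
    dg (aux hm v) S (Sum.inl j) =
      (if (Sum.inl j : ZMod m ⊕ ZMod m) ∈ S then 1 else 0) +
      (if (Sum.inl (j - 1) : ZMod m ⊕ ZMod m) ∈ S then 1 else 0) +
      (if (Sum.inr j : ZMod m ⊕ ZMod m) ∈ S then 1 else 0) := by
  rw [dg_sum]
  congr 1
  · have h1 : ∀ i : ZMod m, (if (Sum.inl i : ZMod m ⊕ ZMod m) ∈ S ∧
        (Sum.inl j : ZMod m ⊕ V) ∈ (aux hm v).ends (Sum.inl i) then 1 else 0) =
        (if i = j then (if (Sum.inl j : ZMod m ⊕ ZMod m) ∈ S then 1 else 0) else 0) +
        (if i = j - 1 then (if (Sum.inl (j - 1) : ZMod m ⊕ ZMod m) ∈ S then 1 else 0) else 0) := by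
      intro i
      simp only [aux_inl, Sym2.mem_iff]
      by_cases h2 : i = j
      · subst h2
        have h3 : ¬ i = i - 1 := by
          intro h
          apply ne_succ hm (i - 1)
          rw [sub_add_cancel]
          exact h.symm
        rw [if_neg h3, if_pos rfl, add_zero]
        simp
      · by_cases h3 : i = j - 1
        · subst h3
          rw [if_neg h2, if_pos rfl, zero_add]
          simp
        · rw [if_neg h2, if_neg h3, if_neg]
          rintro ⟨_, h4 | h4⟩
          · exact h2 (Sum.inl.inj h4).symm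
          · apply h3
            rw [Sum.inl.inj h4, add_sub_cancel_right]
    rw [sum_congr rfl fun i _ => h1 i, sum_add_distrib, sum_ite_eq', sum_ite_eq', if_pos (mem_univ _),
      if_pos (mem_univ _)]
  · have h1 : ∀ i : ZMod m, (if (Sum.inr i : ZMod m ⊕ ZMod m) ∈ S ∧
        (Sum.inl j : ZMod m ⊕ V) ∈ (aux hm v).ends (Sum.inr i) then 1 else 0) =
        (if i = j then (if (Sum.inr j : ZMod m ⊕ ZMod m) ∈ S then 1 else 0) else 0) := by
      intro i
      simp only [aux_inr, Sym2.mem_iff]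
      by_cases h2 : i = j
      · subst h2
        rw [if_pos rfl]
        simp
      · rw [if_neg h2, if_neg]
        rintro ⟨_, h4 | h4⟩
        · exact h2 (Sum.inl.inj h4).symm
        · exact Sum.inl_ne_inr h4
    rw [sum_congr rfl fun i _ => h1 i, sum_ite_eq', if_pos (mem_univ _)]

/-- degrees at the vertices off the circuit -/
theorem dg_inr (hm : 1 < m) (v : ZMod m → V) (S : Finset (ZMod m ⊕ ZMod m)) (x : V) :
    dg (aux hm v) S (Sum.inr x) =
      ∑ i ∈ univ.filter fun i => v i = x, (if (Sum.inr i : ZMod m ⊕ ZMod m) ∈ S then 1 else 0) := by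
  rw [dg_sum]
  have h1 : ∀ i : ZMod m, (if (Sum.inl i : ZMod m ⊕ ZMod m) ∈ S ∧
      (Sum.inr x : ZMod m ⊕ V) ∈ (aux hm v).ends (Sum.inl i) then 1 else 0) = 0 := by
    intro i
    simp only [aux_inl, Sym2.mem_iff]
    rw [if_neg]
    rintro ⟨_, h4 | h4⟩
    · exact Sum.inl_ne_inr h4.symm
    · exact Sum.inl_ne_inr h4.symm
  rw [sum_congr rfl fun i _ => h1 i, sum_const_zero, zero_add, sum_filter]
  apply sum_congr rfl
  intro i _
  simp only [aux_inr, Sym2.mem_iff]
  by_cases h2 : v i = x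
  · subst h2
    simp
  · rw [if_neg h2, if_neg]
    rintro ⟨_, h4 | h4⟩
    · exact Sum.inl_ne_inr h4.symm
    · exact h2 (Sum.inr.inj h4).symm

/-- the circuit -/
def rim : Finset (ZMod m ⊕ ZMod m) := univ.image Sum.inl

theorem mem_rim (i : ZMod m) : (Sum.inl i : ZMod m ⊕ ZMod m) ∈ (rim : Finset (ZMod m ⊕ ZMod m)) :=
  mem_image_of_mem _ (mem_univ i)

theorem not_mem_rim (i : ZMod m) :
    (Sum.inr i : ZMod m ⊕ ZMod m) ∉ (rim : Finset (ZMod m ⊕ ZMod m)) := by
  intro h
  obtain ⟨j, _, hj⟩ := mem_image.1 h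
  exact Sum.inl_ne_inr hj

theorem rim_deg (hm : 1 < m) (v : ZMod m → V) (j : ZMod m) :
    dg (aux hm v) rim (Sum.inl j) = 2 := by
  rw [dg_inl, if_pos (mem_rim _), if_pos (mem_rim _), if_neg (not_mem_rim _)]

theorem rim_off (hm : 1 < m) (v : ZMod m → V) (x : V) :
    dg (aux hm v) rim (Sum.inr x) = 0 := by
  rw [dg_inr]
  exact sum_eq_zero fun i _ => if_neg (not_mem_rim i)

theorem rim_circuit (hm : 1 < m) (v : ZMod m → V) : IsCircuit (aux hm v) rim := by
  refine ⟨⟨Sum.inl 0, mem_rim 0⟩, ?_, ?_⟩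
  · rintro (j | x)
    · exact Or.inr (rim_deg hm v j)
    · exact Or.inl (rim_off hm v x)
  · have key : ∀ (i : ZMod m) (n : ℕ), Relation.ReflTransGen
        (fun a b => b ∈ (rim : Finset (ZMod m ⊕ ZMod m)) ∧ Touch (aux hm v) a b)
        (Sum.inl i) (Sum.inl (i + (n : ZMod m))) := by
      intro i n
      induction n with
      | zero => simpa using Relation.ReflTransGen.refl
      | succ n ih =>
        refine ih.tail ⟨mem_rim _, Sum.inl (i + ((n + 1 : ℕ) : ZMod m)), ?_, ?_⟩
        · rw [aux_inl, Sym2.mem_iff]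
          right
          push_cast
          rw [add_assoc]
        · rw [aux_inl, Sym2.mem_iff]
          exact Or.inl rfl
    intro e he f hf
    obtain ⟨i, _, rfl⟩ := mem_image.1 he
    obtain ⟨j, _, rfl⟩ := mem_image.1 hf
    have h := key i (j - i).val
    rw [ZMod.natCast_val, ZMod.cast_id', id, add_sub_cancel] at h
    exact h

theorem rim_dom (hm : 1 < m) (v : ZMod m → V) (e : ZMod m ⊕ ZMod m) :
    ∃ y ∈ (aux hm v).ends e, dg (aux hm v) rim y = 2 := by
  rcases e with i | i
  · exact ⟨Sum.inl i, by rw [aux_inl]; exact Sym2.mem_mk_left _ _, rim_deg hm v i⟩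
  · exact ⟨Sum.inl i, by rw [aux_inr]; exact Sym2.mem_mk_left _ _, rim_deg hm v i⟩

/-- **Colouring of the steps of a closed trail.** -/
theorem colouring (hm : 1 < m) (v : ZMod m → V)
    (h1 : ∀ x, (univ.filter fun i => v i = x).card ≠ 1) :
    ∃ κ : ZMod m → Fin 4, (∀ i, κ i ≠ κ (i - 1)) ∧
      ∀ (k : Fin 4) (x : V), Even (∑ i ∈ univ.filter fun i => v i = x,
        ((if κ i = k then 1 else 0) + (if κ (i - 1) = k then 1 else 0))) := by
  obtain ⟨X, hX, c1, c2⟩ := core (aux hm v) rim (rim_circuit hm v)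
    (even_of_dom _ _ (rim_circuit hm v) (rim_dom hm v) (by
      rintro (j | x)
      · rw [dg_inl, if_pos (mem_univ _), if_pos (mem_univ _), if_pos (mem_univ _)]
        norm_num
      · rw [dg_inr]
        have : ∀ i ∈ univ.filter fun i => v i = x,
            (if (Sum.inr i : ZMod m ⊕ ZMod m) ∈ (univ : Finset (ZMod m ⊕ ZMod m)) then 1 else 0) =
            1 := fun i _ => if_pos (mem_univ _)
        rw [sum_congr rfl this, sum_const, smul_eq_mul, mul_one]
        exact h1 x))
    (short_of_dom _ _ (rim_dom hm v))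
  have huniq : ∀ i : ZMod m, ∃ k : Fin 4, ∀ l, ((Sum.inl i : ZMod m ⊕ ZMod m) ∈ X l ↔ k = l) := by
    intro i
    have h2 := c1 _ (mem_rim i)
    unfold ct at h2
    obtain ⟨k, hk⟩ := card_eq_one.1 h2
    refine ⟨k, fun l => ?_⟩
    have h3 : l ∈ (univ.filter fun a => (Sum.inl i : ZMod m ⊕ ZMod m) ∈ X a) ↔ l ∈ ({k} : Finset (Fin 4)) := by
      rw [hk]
    rw [mem_filter, mem_singleton] at h3
    constructor
    · intro h4
      exact (h3.1 ⟨mem_univ _, h4⟩).symm
    · intro h4
      exact (h3.2 h4.symm).2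
  choose κ hκ using huniq
  have hloc : ∀ (i : ZMod m) (k : Fin 4), Even ((if κ i = k then 1 else 0) +
      (if κ (i - 1) = k then 1 else 0) +
      (if (Sum.inr i : ZMod m ⊕ ZMod m) ∈ X k then 1 else 0)) := by
    intro i k
    have h2 := hX k (Sum.inl i)
    rw [dg_inl] at h2
    simp only [hκ] at h2
    exact h2
  refine ⟨κ, ?_, ?_⟩
  · intro i hcon
    have h2 := c2 _ (not_mem_rim i)
    have h3 : (univ.filter fun a => (Sum.inr i : ZMod m ⊕ ZMod m) ∈ X a) = ∅ := by
      rw [filter_eq_empty_iff]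
      intro k _ hk
      have h4 := hloc i k
      rw [← hcon, if_pos hk] at h4
      by_cases h5 : κ i = k
      · rw [if_pos h5] at h4
        revert h4; decide
      · rw [if_neg h5] at h4
        revert h4; decide
    unfold ct at h2
    rw [h3, card_empty] at h2
    omega
  · intro k x
    have h2 := hX k (Sum.inr x)
    rw [dg_inr] at h2
    have h3 : Even (∑ i ∈ univ.filter fun i => v i = x, ((if κ i = k then 1 else 0) +
      (if κ (i - 1) = k then 1 else 0) +
      (if (Sum.inr i : ZMod m ⊕ ZMod m) ∈ X k then 1 else 0))) :=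
      even_sum _ fun i _ => hloc i k
    rw [sum_add_distrib] at h3
    exact (Nat.even_add.1 h3).2 h2

end Pool.Agent.Y392.SD.Tour
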